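import Pool.Agent.Helper10.K3R.Defs

/-!
# The real place, module RD : connectedness
-/

namespace KumWA

open Classical Topology

/-- a locally constant property on an interval is constant -/
theorem rd_clopen {I : Set ℝ} (hI : IsPreconnected I) (p : ℝ → Prop)
    (hloc : ∀ x ∈ I, ∃ ε : ℝ, 0 < ε ∧ ∀ y ∈ I, |y - x| < ε → (p y ↔ p x)) {a b : ℝ} (ha : a ∈ I)
    (hb : b ∈ I) : p a ↔ p b := by
  have : PreconnectedSpace I := Subtype.preconnectedSpace hI
  have hf : IsLocallyConstant (fun x : I => p x) := by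
    rw [IsLocallyConstant.iff_eventually_eq]
    intro x
    obtain ⟨ε, hε, H⟩ := hloc x x.2
    filter_upwards [Metric.ball_mem_nhds x hε] with y hy
    rw [Metric.mem_ball, Subtype.dist_eq, Real.dist_eq] at hy
    exact propext (H y y.2 hy)
  have := hf.apply_eq_of_preconnectedSpace ⟨a, ha⟩ ⟨b, hb⟩
  simp only at this
  rw [this]

/-- coordinate-close implies group-close, outside the points of order two -/
theorem rd_close {d : ℝ} {P : E d} (hP : P ≠ 0) (hy : yc P ≠ 0) (R : ℝ) :
    ∃ ε : ℝ, 0 < ε ∧ ∀ P' : E d, P' ≠ 0 → |xc P' - xc P| < ε → |yc P' - yc P| < ε →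
      Far R (P' - P) := by
  have hcont : Continuous (fun u : ℝ × ℝ => (u.1 * xc P + 2 * d ^ 2) * (u.1 + xc P) +
      8 * d * (u.1 * xc P) + 2 * u.2 * yc P) := by fun_prop
  have hval : (xc P * xc P + 2 * d ^ 2) * (xc P + xc P) +
      8 * d * (xc P * xc P) + 2 * yc P * yc P = 4 * yc P ^ 2 := by
    linear_combination (-2) * curve_eq P
  have hy2 : 0 < yc P ^ 2 := by positivity
  obtain ⟨δ, hδ, H⟩ := Metric.continuousAt_iff.1 (hcont.continuousAt (x := (xc P, yc P)))
    (2 * yc P ^ 2) (by positivity)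
  set R' : ℝ := |R| + 1 with hR'
  have hR0 : 0 < R' := by positivity
  refine ⟨min (min δ |yc P|) (min 1 (2 * yc P ^ 2 / R')), ?_, fun P' hP' h1 h2 => ?_⟩
  · have : 0 < |yc P| := abs_pos.2 hy
    have h3 : 0 < 2 * yc P ^ 2 / R' := by positivity
    exact lt_min (lt_min hδ this) (lt_min one_pos h3)
  · have a1 := h1.trans_le ((min_le_left _ _).trans (min_le_left _ _))
    have a2 := h2.trans_le ((min_le_left _ _).trans (min_le_left _ _))
    have a3 := h2.trans_le ((min_le_left _ _).trans (min_le_right _ _))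
    have a4 := h1.trans_le ((min_le_right _ _).trans (min_le_left _ _))
    have a5 := h1.trans_le ((min_le_right _ _).trans (min_le_right _ _))
    by_cases hx : xc P' = xc P
    · rcases (xc_eq_iff hP' hP).1 hx with h | h
      · left
        rw [h, sub_self]
      · exfalso
        rw [h, yc_neg] at a3
        have : |-yc P - yc P| = 2 * |yc P| := by
          rw [show -yc P - yc P = (-2) * yc P by ring, abs_mul]
          norm_num
        rw [this] at a3
        have := abs_pos.2 hy
        linarith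
    · obtain ⟨h3, h4⟩ := xc_sub_mul hP' hP hx
      right
      have h5 := H (x := (xc P', yc P')) (by
        rw [Prod.dist_eq, max_lt_iff, Real.dist_eq, Real.dist_eq]
        exact ⟨a1, a2⟩)
      simp only at h5
      rw [hval, Real.dist_eq, ← h4, abs_lt] at h5
      have h6 : 2 * yc P ^ 2 ≤ xc (P' - P) * (xc P' - xc P) ^ 2 := by linarith
      have h7 : 0 < (xc P' - xc P) ^ 2 := by
        have : xc P' - xc P ≠ 0 := sub_ne_zero.2 hx
        positivity
      have h8 : (xc P' - xc P) ^ 2 ≤ 2 * yc P ^ 2 / R' := by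
        have h9 : (xc P' - xc P) ^ 2 = |xc P' - xc P| * |xc P' - xc P| := by
          rw [← sq, sq_abs]
        rw [h9]
        have := abs_nonneg (xc P' - xc P)
        nlinarith
      have h10 : R' ≤ xc (P' - P) := by
        by_contra hcon
        push Not at hcon
        have h11 : xc (P' - P) * (xc P' - xc P) ^ 2 < R' * (xc P' - xc P) ^ 2 :=
          mul_lt_mul_of_pos_right hcon h7
        have h12 : R' * (xc P' - xc P) ^ 2 ≤ R' * (2 * yc P ^ 2 / R') :=
          mul_le_mul_of_nonneg_left h8 hR0.le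
        rw [mul_div_cancel₀ _ hR0.ne'] at h12
        linarith
      have h13 := le_abs_self (xc (P' - P))
      have h14 := le_abs_self R
      linarith

/-- the derivative does not vanish at a point of order two -/
theorem rd_deriv_ne {d : ℝ} (hd : d ≠ 0) {P : E d} (hy : yc P = 0) :
    3 * xc P ^ 2 + 8 * d * xc P + 2 * d ^ 2 ≠ 0 := by
  intro h
  have e := curve_eq P
  rw [hy] at e
  have hd2 : 0 < d ^ 2 := by positivity
  have e2 : xc P * (xc P ^ 2 + 4 * d * xc P + 2 * d ^ 2) = 0 := by linear_combination -e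
  rcases mul_eq_zero.1 e2 with h0 | h0
  · rw [h0] at h
    nlinarith
  · have h1 : 2 * (xc P * (xc P + 2 * d)) = 0 := by linear_combination h - h0
    have h2 : xc P * (xc P + 2 * d) = 0 := by linarith
    rcases mul_eq_zero.1 h2 with h3 | h3
    · rw [h3] at h
      nlinarith
    · have h4 : xc P = -(2 * d) := by linarith
      rw [h4] at h0
      nlinarith

/-- coordinate-close implies group-close, at the points of order two -/
theorem rd_tors {d : ℝ} (hd : d ≠ 0) {P₀ : E d} (hP₀ : P₀ ≠ 0) (hy : yc P₀ = 0) (R : ℝ) :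
    ∃ ε : ℝ, 0 < ε ∧ ∀ P : E d, P ≠ 0 → |xc P - xc P₀| < ε → Far R (P - P₀) := by
  set e := xc P₀ with he
  set D : ℝ := 3 * e ^ 2 + 8 * d * e + 2 * d ^ 2 with hD
  have hD0 : 0 < |D| := abs_pos.2 (rd_deriv_ne hd hy)
  have hcont : Continuous (fun x : ℝ => e * x + 2 * e ^ 2 + 8 * d * e + 2 * d ^ 2) := by fun_prop
  have hval : e * e + 2 * e ^ 2 + 8 * d * e + 2 * d ^ 2 = D := by rw [hD]; ring
  obtain ⟨δ, hδ, H⟩ := Metric.continuousAt_iff.1 (hcont.continuousAt (x := e))
    (|D| / 2) (by positivity)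
  set R' : ℝ := |R| + 1 with hR'
  have hR0 : 0 < R' := by positivity
  refine ⟨min δ (|D| / 2 / R'), lt_min hδ (by positivity), fun P hP h1 => ?_⟩
  have a1 := h1.trans_le (min_le_left _ _)
  have a2 := h1.trans_le (min_le_right _ _)
  by_cases hx : xc P = e
  · left
    have hneg : -P₀ = P₀ := neg_eq_of_add_eq_zero_left (add_self_of_yc hy)
    rcases (xc_eq_iff hP hP₀).1 hx with h | h
    · rw [h, sub_self]
    · rw [h, hneg, sub_self]
  · obtain ⟨h3, h4⟩ := xc_sub_mul hP hP₀ hx
    right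
    have hne : xc P - e ≠ 0 := sub_ne_zero.2 hx
    have hcurve : e ^ 3 + 4 * d * e ^ 2 + 2 * d ^ 2 * e = 0 := by
      rw [he, ← curve_eq P₀, hy]
      ring
    have h5 : xc (P - P₀) * (xc P - e) = e * xc P + 2 * e ^ 2 + 8 * d * e + 2 * d ^ 2 := by
      refine mul_right_cancel₀ hne ?_
      rw [hy] at h4
      linear_combination h4 + 2 * hcurve
    have h6 := H (x := xc P) (by rw [Real.dist_eq]; exact a1)
    rw [hval, Real.dist_eq, ← h5] at h6
    have h7 : |D| / 2 ≤ |xc (P - P₀) * (xc P - e)| := by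
      have h8 := abs_sub_abs_le_abs_sub D (xc (P - P₀) * (xc P - e))
      rw [abs_sub_comm] at h8
      linarith
    rw [abs_mul] at h7
    have h9 : 0 < |xc P - e| := abs_pos.2 hne
    have h10 : R' ≤ |xc (P - P₀)| := by
      by_contra hcon
      push Not at hcon
      have h11 : |xc (P - P₀)| * |xc P - e| < R' * |xc P - e| := mul_lt_mul_of_pos_right hcon h9
      have h12 : R' * |xc P - e| ≤ R' * (|D| / 2 / R') := mul_le_mul_of_nonneg_left a2.le hR0.le
      rw [mul_div_cancel₀ _ hR0.ne'] at h12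
      linarith
    have h14 := le_abs_self R
    linarith

/-- points above nearby x-coordinates -/
theorem rd_near {d : ℝ} (hd : d ≠ 0) {P₀ : E d} (hP₀ : P₀ ≠ 0) (R : ℝ) :
    ∃ ε : ℝ, 0 < ε ∧ ∀ P : E d, P ≠ 0 → |xc P - xc P₀| < ε →
      Far R (P - P₀) ∨ Far R (-P - P₀) := by
  by_cases hy : yc P₀ = 0
  · obtain ⟨ε, hε, H⟩ := rd_tors hd hP₀ hy R
    exact ⟨ε, hε, fun P hP h => Or.inl (H P hP h)⟩
  · obtain ⟨ε, hε, H⟩ := rd_close hP₀ hy R
    have hcont : Continuous (fun x : ℝ => x ^ 3 + 4 * d * x ^ 2 + 2 * d ^ 2 * x) := by fun_prop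
    obtain ⟨δ, hδ, Hδ⟩ := Metric.continuousAt_iff.1 (hcont.continuousAt (x := xc P₀)) (ε ^ 2)
      (by positivity)
    refine ⟨min ε δ, lt_min hε hδ, fun P hP hx => ?_⟩
    have h1 := Hδ (x := xc P) (by rw [Real.dist_eq]; exact hx.trans_le (min_le_right _ _))
    rw [Real.dist_eq, ← curve_eq P, ← curve_eq P₀] at h1
    have h2 : yc P ^ 2 - yc P₀ ^ 2 = (yc P - yc P₀) * (-yc P - yc P₀) * (-1) := by ring
    rw [h2, abs_mul, abs_neg, abs_one, mul_one, abs_mul] at h1
    have hx' := hx.trans_le (min_le_left ε δ)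
    by_cases h3 : |yc P - yc P₀| < ε
    · left; exact H P hP hx' h3
    · right
      push Not at h3
      apply H (-P) (neg_ne hP)
      · rw [xc_neg]; exact hx'
      · rw [yc_neg]
        by_contra h4
        push Not at h4
        nlinarith [abs_nonneg (yc P - yc P₀), abs_nonneg (-yc P - yc P₀)]

/-- existence of points above an admissible coordinate -/
theorem rd_exists {d : ℝ} (hd : d ≠ 0) {x : ℝ} (hx : 0 ≤ x ^ 3 + 4 * d * x ^ 2 + 2 * d ^ 2 * x) :
    ∃ P : E d, P ≠ 0 ∧ xc P = x :=
  ⟨mkP hd x (√(x ^ 3 + 4 * d * x ^ 2 + 2 * d ^ 2 * x)) (Real.sq_sqrt hx), mkP_ne _ _ _ _, rfl⟩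

/-- the condition of the identity component -/
def rdC (d x : ℝ) : Prop := -(d / 2) < x ∧ -(2 * d) < x

theorem rd_fac (d x : ℝ) : x ^ 3 + 4 * d * x ^ 2 + 2 * d ^ 2 * x =
    x * ((x - (-2 + √2) * d) * (x - (-2 - √2) * d)) := by
  have h : √2 ^ 2 = 2 := Real.sq_sqrt (by norm_num)
  linear_combination (d ^ 2 * x) * h

theorem rd_sqrt : 14 / 10 < √2 ∧ √2 < 15 / 10 := by
  constructor
  · rw [Real.lt_sqrt (by norm_num)]; norm_num
  · rw [Real.sqrt_lt' (by norm_num)]; norm_num

/-- the identity component as an interval -/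
theorem rd_I {d : ℝ} (hd : d ≠ 0) :
    IsPreconnected {x : ℝ | 0 ≤ x ^ 3 + 4 * d * x ^ 2 + 2 * d ^ 2 * x ∧ rdC d x} := by
  obtain ⟨s1, s2⟩ := rd_sqrt
  rcases lt_or_gt_of_ne hd with hneg | hpos
  · have : {x : ℝ | 0 ≤ x ^ 3 + 4 * d * x ^ 2 + 2 * d ^ 2 * x ∧ rdC d x} =
        Set.Ici ((-2 - √2) * d) := by
      ext x
      rw [Set.mem_ofPred_eq, Set.mem_Ici, rd_fac, rdC]
      constructor
      · rintro ⟨h1, h2, h3⟩
        by_contra hcon
        push Not at hcon
        have hx : 0 < x := by nlinarith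
        have h4 : 0 < x - (-2 + √2) * d := by nlinarith
        have h5 : x - (-2 - √2) * d < 0 := by linarith
        have := mul_neg_of_pos_of_neg hx (mul_neg_of_pos_of_neg h4 h5)
        linarith
      · intro h
        have h3 : -(2 * d) < x := by nlinarith
        have hx : 0 < x := by nlinarith
        have h4 : 0 ≤ x - (-2 + √2) * d := by nlinarith
        have h5 : 0 ≤ x - (-2 - √2) * d := by linarith
        exact ⟨by positivity, by linarith, h3⟩
    rw [this]
    exact isPreconnected_Ici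
  · have : {x : ℝ | 0 ≤ x ^ 3 + 4 * d * x ^ 2 + 2 * d ^ 2 * x ∧ rdC d x} = Set.Ici 0 := by
      ext x
      rw [Set.mem_ofPred_eq, Set.mem_Ici, rd_fac, rdC]
      constructor
      · rintro ⟨h1, h2, h3⟩
        by_contra hcon
        push Not at hcon
        have h4 : 0 < x - (-2 + √2) * d := by nlinarith
        have h5 : 0 < x - (-2 - √2) * d := by nlinarith
        have := mul_neg_of_neg_of_pos hcon (mul_pos h4 h5)
        linarith
      · intro h
        have h4 : 0 ≤ x - (-2 + √2) * d := by nlinarith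
        have h5 : 0 ≤ x - (-2 - √2) * d := by nlinarith
        exact ⟨by positivity, by linarith, by linarith⟩
    rw [this]
    exact isPreconnected_Ici

/-- the other component as an interval -/
theorem rd_I' {d : ℝ} (hd : d ≠ 0) :
    IsPreconnected {x : ℝ | 0 ≤ x ^ 3 + 4 * d * x ^ 2 + 2 * d ^ 2 * x ∧ ¬ rdC d x} := by
  obtain ⟨s1, s2⟩ := rd_sqrt
  rcases lt_or_gt_of_ne hd with hneg | hpos
  · have : {x : ℝ | 0 ≤ x ^ 3 + 4 * d * x ^ 2 + 2 * d ^ 2 * x ∧ ¬ rdC d x} =
        Set.Icc 0 ((-2 + √2) * d) := by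
      ext x
      rw [Set.mem_ofPred_eq, Set.mem_Icc, rd_fac, rdC, not_and_or, not_lt, not_lt]
      constructor
      · rintro ⟨h1, h2⟩
        have h2' : x ≤ -(2 * d) := by
          rcases h2 with h | h
          · linarith
          · exact h
        have h5 : x - (-2 - √2) * d < 0 := by nlinarith
        have h6 : 0 ≤ -(x * (x - (-2 + √2) * d)) := by
          by_contra hcon
          push Not at hcon
          have : x * (x - (-2 + √2) * d) * (x - (-2 - √2) * d) < 0 :=
            mul_neg_of_pos_of_neg (by linarith) h5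
          linarith
        have hr : 0 < (-2 + √2) * d := by nlinarith
        constructor
        · by_contra hcon
          push Not at hcon
          have : 0 < x * (x - (-2 + √2) * d) := mul_pos_of_neg_of_neg hcon (by linarith)
          linarith
        · by_contra hcon
          push Not at hcon
          have : 0 < x * (x - (-2 + √2) * d) := mul_pos (by linarith) (by linarith)
          linarith
      · rintro ⟨h1, h2⟩
        have h5 : x - (-2 - √2) * d ≤ 0 := by nlinarith
        have h4 : x - (-2 + √2) * d ≤ 0 := by linarith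
        exact ⟨mul_nonneg h1 (mul_nonneg_of_nonpos_of_nonpos h4 h5), Or.inr (by nlinarith)⟩
    rw [this]
    exact isPreconnected_Icc
  · have : {x : ℝ | 0 ≤ x ^ 3 + 4 * d * x ^ 2 + 2 * d ^ 2 * x ∧ ¬ rdC d x} =
        Set.Icc ((-2 - √2) * d) ((-2 + √2) * d) := by
      ext x
      rw [Set.mem_ofPred_eq, Set.mem_Icc, rd_fac, rdC, not_and_or, not_lt, not_lt]
      constructor
      · rintro ⟨h1, h2⟩
        have hx : x < 0 := by
          rcases h2 with h | h <;> linarith
        have h6 : (x - (-2 + √2) * d) * (x - (-2 - √2) * d) ≤ 0 := by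
          by_contra hcon
          push Not at hcon
          have := mul_neg_of_neg_of_pos hx hcon
          linarith
        have hr : (-2 - √2) * d < (-2 + √2) * d := by nlinarith
        constructor
        · by_contra hcon
          push Not at hcon
          have : 0 < (x - (-2 + √2) * d) * (x - (-2 - √2) * d) :=
            mul_pos_of_neg_of_neg (by linarith) (by linarith)
          linarith
        · by_contra hcon
          push Not at hcon
          have : 0 < (x - (-2 + √2) * d) * (x - (-2 - √2) * d) :=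
            mul_pos (by linarith) (by linarith)
          linarith
      · rintro ⟨h1, h2⟩
        have hx : x < 0 := by nlinarith
        have h5 : 0 ≤ x - (-2 - √2) * d := by linarith
        have h4 : x - (-2 + √2) * d ≤ 0 := by linarith
        exact ⟨mul_nonneg_of_nonpos_of_nonpos hx.le (mul_nonpos_of_nonpos_of_nonneg h4 h5),
          Or.inl (by nlinarith)⟩
    rw [this]
    exact isPreconnected_Icc

theorem rd_comp_iff {d : ℝ} {P : E d} (hP : P ≠ 0) : Comp P ↔ rdC d (xc P) := by
  unfold Comp rdC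
  constructor
  · rintro (h | h)
    · exact absurd h hP
    · exact h
  · exact Or.inr

theorem rd_nonneg {d : ℝ} (P : E d) : 0 ≤ xc P ^ 3 + 4 * d * xc P ^ 2 + 2 * d ^ 2 * xc P := by
  rw [← curve_eq P]
  positivity

/-- doubles are in the identity component -/
theorem comp_double {d : ℝ} (hd : d ≠ 0) (P : E d) : Comp (P + P) := by
  by_cases hP : P = 0
  · left
    rw [hP]
    exact add_zero _
  by_cases hy : yc P = 0
  · left
    exact add_self_of_yc hy
  · obtain ⟨h1, h2⟩ := xc_double hP hy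
    have hy2 : 0 < 4 * yc P ^ 2 := by positivity
    rw [rd_comp_iff h1, rdC]
    have hd2 : 0 < d ^ 2 := by positivity
    have h3 : 0 ≤ xc (P + P) := by
      by_contra hcon
      push Not at hcon
      have := mul_neg_of_neg_of_pos hcon hy2
      rw [h2] at this
      have := sq_nonneg (xc P ^ 2 - 2 * d ^ 2)
      linarith
    rcases lt_or_gt_of_ne hd with hneg | hpos
    · have h4 : -(2 * d) < xc (P + P) := by
        by_contra hcon
        push Not at hcon
        have h5 : xc (P + P) * (4 * yc P ^ 2) ≤ -(2 * d) * (4 * yc P ^ 2) :=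
          mul_le_mul_of_nonneg_right hcon hy2.le
        rw [h2, curve_eq P] at h5
        have h6 : (xc P ^ 2 - 2 * d ^ 2) ^ 2 -
            -(2 * d) * (4 * (xc P ^ 3 + 4 * d * xc P ^ 2 + 2 * d ^ 2 * xc P)) =
            (xc P ^ 2 + 4 * d * xc P + 2 * d ^ 2) ^ 2 + 8 * d ^ 2 * xc P ^ 2 := by ring
        have h7 : (xc P ^ 2 + 4 * d * xc P + 2 * d ^ 2) ^ 2 + 8 * d ^ 2 * xc P ^ 2 ≤ 0 := by
          linarith
        have h8 : 0 ≤ 8 * d ^ 2 * xc P ^ 2 := by positivity
        have h9 := sq_nonneg (xc P ^ 2 + 4 * d * xc P + 2 * d ^ 2)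
        have h10 : 8 * d ^ 2 * xc P ^ 2 = 0 := by linarith
        have h11 : xc P = 0 := by
          have h12 : xc P ^ 2 = 0 := by
            rcases mul_eq_zero.1 h10 with h | h
            · exfalso
              nlinarith
            · exact h
          exact pow_eq_zero_iff two_ne_zero |>.1 h12
        rw [h11] at h7
        nlinarith
      exact ⟨by linarith, h4⟩
    · exact ⟨by linarith, by linarith⟩

/-- the identity component is contained in every open subgroup -/
theorem inf_conn {d : ℝ} (hd : d ≠ 0) {R : ℝ} (S : AddSubgroup (E d))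
    (hS : ∀ P : E d, Far R P → P ∈ S) {P : E d} (hP : Comp P) : P ∈ S := by
  by_cases hP0 : P = 0
  · rw [hP0]
    exact S.zero_mem
  set p : ℝ → Prop := fun x => ∀ P : E d, P ≠ 0 → xc P = x → P ∈ S with hp
  have hp' : ∀ P : E d, P ≠ 0 → (p (xc P) ↔ P ∈ S) := by
    intro P hP
    constructor
    · intro h; exact h P hP rfl
    · intro h Q hQ hx
      rcases (xc_eq_iff hQ hP).1 hx with rfl | rfl
      · exact h
      · exact S.neg_mem h
  -- a large point
  set X : ℝ := max |R| (4 * |d|) + 1 with hX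
  have hXR : |R| ≤ X := (le_max_left _ _).trans (by linarith)
  have hXd : 4 * |d| < X := by
    have := le_max_right |R| (4 * |d|)
    linarith
  have hX0 : 0 < X := by
    have := abs_nonneg d
    linarith
  have hXin : X ∈ {x : ℝ | 0 ≤ x ^ 3 + 4 * d * x ^ 2 + 2 * d ^ 2 * x ∧ rdC d x} := by
    have h1 := neg_abs_le d
    refine ⟨?_, ?_, ?_⟩
    · have h2 : 0 ≤ X + 4 * d := by linarith
      have : X ^ 3 + 4 * d * X ^ 2 + 2 * d ^ 2 * X = X ^ 2 * (X + 4 * d) + 2 * d ^ 2 * X := by ring
      rw [this]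
      positivity
    · have := neg_le_abs d
      linarith [abs_nonneg d]
    · linarith [abs_nonneg d]
  obtain ⟨P₁, hP₁, hx₁⟩ := rd_exists hd hXin.1
  have hP₁S : P₁ ∈ S := by
    apply hS
    right
    rw [hx₁, abs_of_pos hX0]
    exact (le_abs_self R).trans hXR
  have hloc : ∀ x ∈ {x : ℝ | 0 ≤ x ^ 3 + 4 * d * x ^ 2 + 2 * d ^ 2 * x ∧ rdC d x},
      ∃ ε : ℝ, 0 < ε ∧ ∀ y ∈ {x : ℝ | 0 ≤ x ^ 3 + 4 * d * x ^ 2 + 2 * d ^ 2 * x ∧ rdC d x},
        |y - x| < ε → (p y ↔ p x) := by
    rintro x ⟨hx, -⟩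
    obtain ⟨P₀, hP₀, rfl⟩ := rd_exists hd hx
    obtain ⟨ε, hε, H⟩ := rd_near hd hP₀ R
    refine ⟨ε, hε, ?_⟩
    rintro y ⟨hy, -⟩ hyx
    obtain ⟨P, hP, rfl⟩ := rd_exists hd hy
    rw [hp' P hP, hp' P₀ hP₀]
    rcases H P hP hyx with h | h
    · have h1 := hS _ h
      constructor
      · intro h2
        have := S.sub_mem h2 h1
        rwa [sub_sub_cancel] at this
      · intro h2
        have := S.add_mem h1 h2
        rwa [sub_add_cancel] at this
    · have h1 := hS _ h
      constructor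
      · intro h2
        have := S.sub_mem (S.neg_mem h2) h1
        rwa [sub_sub_cancel] at this
      · intro h2
        have := S.add_mem h1 h2
        rw [sub_add_cancel] at this
        have := S.neg_mem this
        rwa [neg_neg] at this
  have hfin := rd_clopen (rd_I hd) p hloc hXin (b := xc P)
    ⟨rd_nonneg P, (rd_comp_iff hP0).1 hP⟩
  rw [← hp' P hP0, ← hfin, ← hx₁, hp' P₁ hP₁]
  exact hP₁S

/-- the other component is contained in one coset of every open subgroup -/
theorem inf_conn' {d : ℝ} (hd : d ≠ 0) {R : ℝ} (S : AddSubgroup (E d))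
    (hS : ∀ P : E d, Far R P → P ∈ S) {P Q : E d} (hP : ¬ Comp P) (hQ : ¬ Comp Q) :
    P - Q ∈ S := by
  have hP0 : P ≠ 0 := fun h => hP (Or.inl h)
  have hQ0 : Q ≠ 0 := fun h => hQ (Or.inl h)
  have hdbl : ∀ A : E d, A + A ∈ S := fun A => inf_conn hd S hS (comp_double hd A)
  have hneg : ∀ A : E d, A - Q ∈ S → -A - Q ∈ S := by
    intro A hA
    have := S.sub_mem hA (hdbl A)
    have h2 : A - Q - (A + A) = -A - Q := by abel
    rwa [h2] at this
  set p : ℝ → Prop := fun x => ∀ A : E d, A ≠ 0 → xc A = x → A - Q ∈ S with hp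
  have hp' : ∀ A : E d, A ≠ 0 → (p (xc A) ↔ A - Q ∈ S) := by
    intro A hA
    constructor
    · intro h; exact h A hA rfl
    · intro h B hB hx
      rcases (xc_eq_iff hB hA).1 hx with rfl | rfl
      · exact h
      · exact hneg _ h
  have hloc : ∀ x ∈ {x : ℝ | 0 ≤ x ^ 3 + 4 * d * x ^ 2 + 2 * d ^ 2 * x ∧ ¬ rdC d x},
      ∃ ε : ℝ, 0 < ε ∧ ∀ y ∈ {x : ℝ | 0 ≤ x ^ 3 + 4 * d * x ^ 2 + 2 * d ^ 2 * x ∧ ¬ rdC d x},
        |y - x| < ε → (p y ↔ p x) := by
    rintro x ⟨hx, -⟩
    obtain ⟨P₀, hP₀, rfl⟩ := rd_exists hd hx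
    obtain ⟨ε, hε, H⟩ := rd_near hd hP₀ R
    refine ⟨ε, hε, ?_⟩
    rintro y ⟨hy, -⟩ hyx
    obtain ⟨A, hA, rfl⟩ := rd_exists hd hy
    rw [hp' A hA, hp' P₀ hP₀]
    rcases H A hA hyx with h | h
    · have h1 := hS _ h
      have e1 : A - Q = (A - P₀) + (P₀ - Q) := by abel
      rw [e1]
      exact ⟨fun h2 => (S.add_mem_cancel_left h1).1 h2, fun h2 => S.add_mem h1 h2⟩
    · have h1 := hS _ h
      have e1 : -A - Q = (-A - P₀) + (P₀ - Q) := by abel
      constructor
      · intro h2
        have h3 := hneg _ h2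
        rw [e1] at h3
        exact (S.add_mem_cancel_left h1).1 h3
      · intro h2
        have h3 : -A - Q ∈ S := by
          rw [e1]
          exact S.add_mem h1 h2
        have h4 := hneg _ h3
        rwa [neg_neg] at h4
  have hfin := rd_clopen (rd_I' hd) p hloc (a := xc P) (b := xc Q)
    ⟨rd_nonneg P, fun h => hP ((rd_comp_iff hP0).2 h)⟩
    ⟨rd_nonneg Q, fun h => hQ ((rd_comp_iff hQ0).2 h)⟩
  rw [← hp' P hP0, hfin, hp' Q hQ0, sub_self]
  exact S.zero_mem

end KumWA
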