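import Pool.Agent.Helper10.K3R.Defs

/-!
# The real place, module RE : points exchanged by the involution, in different components
-/

namespace KumWA

open Classical Topology

/-- real points exchanged by the involution, in different components -/
theorem seed {d : ℝ} (hd : d ≠ 0) : ∃ (u : Pt ℝ) (h : IOK u) (d₀ : ℝ) (P₀ R₀ : E d₀)
    (P' R' : E d), Rep u d₀ P₀ R₀ ∧ Comp R₀ ∧ Rep (iota u h) d P' R' ∧ ¬ Comp R' := by
  rcases lt_or_gt_of_ne hd with hneg | hpos
  · -- `d < 0`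
    let u : Pt ℝ := ⟨(4, 1 / 2, 17), by unfold ff; norm_num, by norm_num⟩
    have hu : IOK u := by
      refine ⟨?_, ?_, ?_⟩
      · change Dn (4 : ℝ) (1 / 2) ≠ 0
        unfold Dn
        norm_num
      · change (4 : ℝ) + 1 / 2 + 4 ≠ 0
        norm_num
      · change qn (4 : ℝ) (1 / 2) ≠ 0
        unfold qn
        norm_num
    have hr : rho (4 : ℝ) (1 / 2) = -1 := by
      unfold rho Dn
      norm_num
    have hk : kap (4 : ℝ) (1 / 2) = -1 / 17 := by
      unfold kap Dn qn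
      norm_num
    have h34 : (34 : ℝ) ≠ 0 := by norm_num
    have hd3 : 0 < -d ^ 3 := by
      have : 0 < (-d) ^ 3 := pow_pos (by linarith) 3
      nlinarith
    have e1 : √(-8 * d ^ 3) ^ 2 = -8 * d ^ 3 := Real.sq_sqrt (by linarith)
    have e2 : √(-(d ^ 3) / 8) ^ 2 = -(d ^ 3) / 8 := Real.sq_sqrt (by linarith)
    refine ⟨u, hu, 34, mkP h34 136 2312 (by norm_num), mkP h34 17 289 (by norm_num),
      mkP hd (-4 * d) (√(-8 * d ^ 3)) (by rw [e1]; ring),
      mkP hd (-(d / 2)) (√(-(d ^ 3) / 8)) (by rw [e2]; ring), ?_, ?_, ?_, ?_⟩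
    · refine ⟨h34, mkP_ne _ _ _ _, mkP_ne _ _ _ _, ?_, ?_, ?_⟩
      · change (4 : ℝ) * 34 = 136
        norm_num
      · change (1 / 2 : ℝ) * 34 = 17
        norm_num
      · change (17 : ℝ) * 34 ^ 3 = 2312 * 289
        norm_num
    · right
      rw [xc_mkP]
      norm_num
    · refine ⟨hd, mkP_ne _ _ _ _, mkP_ne _ _ _ _, ?_, ?_, ?_⟩
      · rw [iota_x, xc_mkP]
        change rho (4 : ℝ) (1 / 2) * 4 * d = -4 * d
        rw [hr]
        ring
      · rw [iota_y, xc_mkP]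
        change rho (4 : ℝ) (1 / 2) * (1 / 2) * d = -(d / 2)
        rw [hr]
        ring
      · rw [iota_z, yc_mkP, yc_mkP]
        change kap (4 : ℝ) (1 / 2) * 17 * d ^ 3 = √(-8 * d ^ 3) * √(-(d ^ 3) / 8)
        rw [hk, ← Real.sqrt_mul (by linarith)]
        have e3 : -8 * d ^ 3 * (-(d ^ 3) / 8) = (-d ^ 3) ^ 2 := by ring
        rw [e3, Real.sqrt_sq hd3.le]
        ring
    · rintro (h | ⟨h, -⟩)
      · exact mkP_ne _ _ _ _ h
      · rw [xc_mkP] at h
        exact lt_irrefl _ h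
  · -- `d > 0`
    let u : Pt ℝ := ⟨(1, 1, 7), by unfold ff; norm_num, by norm_num⟩
    have hu : IOK u := by
      refine ⟨?_, ?_, ?_⟩
      · change Dn (1 : ℝ) 1 ≠ 0
        unfold Dn
        norm_num
      · change (1 : ℝ) + 1 + 4 ≠ 0
        norm_num
      · change qn (1 : ℝ) 1 ≠ 0
        unfold qn
        norm_num
    have hr : rho (1 : ℝ) 1 = -3 / 2 := by
      unfold rho Dn
      norm_num
    have hk : kap (1 : ℝ) 1 = 3 / 8 := by
      unfold kap Dn qn
      norm_num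
    have h7 : (7 : ℝ) ≠ 0 := by norm_num
    have hd3 : 0 < d ^ 3 := pow_pos hpos 3
    have e1 : √(21 / 8 * d ^ 3) ^ 2 = 21 / 8 * d ^ 3 := Real.sq_sqrt (by linarith)
    refine ⟨u, hu, 7, mkP h7 7 49 (by norm_num), mkP h7 7 49 (by norm_num),
      mkP hd (-3 / 2 * d) (√(21 / 8 * d ^ 3)) (by rw [e1]; ring),
      mkP hd (-3 / 2 * d) (√(21 / 8 * d ^ 3)) (by rw [e1]; ring), ?_, ?_, ?_, ?_⟩
    · refine ⟨h7, mkP_ne _ _ _ _, mkP_ne _ _ _ _, ?_, ?_, ?_⟩
      · change (1 : ℝ) * 7 = 7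
        norm_num
      · change (1 : ℝ) * 7 = 7
        norm_num
      · change (7 : ℝ) * 7 ^ 3 = 49 * 49
        norm_num
    · right
      rw [xc_mkP]
      norm_num
    · refine ⟨hd, mkP_ne _ _ _ _, mkP_ne _ _ _ _, ?_, ?_, ?_⟩
      · rw [iota_x, xc_mkP]
        change rho (1 : ℝ) 1 * 1 * d = -3 / 2 * d
        rw [hr]
        ring
      · rw [iota_y, xc_mkP]
        change rho (1 : ℝ) 1 * 1 * d = -3 / 2 * d
        rw [hr]
        ring
      · rw [iota_z, yc_mkP]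
        change kap (1 : ℝ) 1 * 7 * d ^ 3 = √(21 / 8 * d ^ 3) * √(21 / 8 * d ^ 3)
        rw [hk, ← sq, e1]
        ring
    · rintro (h | ⟨h, -⟩)
      · exact mkP_ne _ _ _ _ h
      · rw [xc_mkP] at h
        linarith

end KumWA
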